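import Pool.Agent.W539.Ker.Inertia
import Pool.Agent.W552.RatBasis

/-!
# Maximal orthogonal families in a rational subspace
-/

open Finset

namespace Pool.Agent.Run7.h98.HT

open Pool.Agent.W539.Ker Pool.Agent.W552

universe w w'

variable {K : Type w'} [Field K] [CharZero K] {V : Type w} [AddCommGroup V] [Module K V]

/-- A maximal orthogonal family of anisotropic vectors in `R`, with rational squares. -/
structure MF (β : V →ₗ[K] V →ₗ[K] K) (R : V → Prop) {ι : Type*} (x : ι → V) (s : ι → ℚ) :
    Prop where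
  mem : ∀ i, R (x i)
  ne : ∀ i, s i ≠ 0
  self : ∀ i, β (x i) (x i) = (s i : K)
  orth : ∀ i j, i ≠ j → β (x i) (x j) = 0
  max : ∀ u, R u → (∀ i, β u (x i) = 0) → β u u = 0

/-- The form is rational and symmetric on the rational subspace `R`. -/
structure RF (β : V →ₗ[K] V →ₗ[K] K) (R : V → Prop) : Prop where
  sub : RatSub K R
  rat : ∀ x y, R x → R y → ∃ q : ℚ, β x y = q
  symm : ∀ x y, R x → R y → β x y = β y x

variable {β : V →ₗ[K] V →ₗ[K] K} {R : V → Prop}

omit [CharZero K] in
lemma orth_li {ι : Type*} [Fintype ι] {x : ι → V} (h : ∀ i, β (x i) (x i) ≠ 0)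
    (h' : ∀ i j, i ≠ j → β (x i) (x j) = 0) : LinearIndependent K x := by
  rw [Fintype.linearIndependent_iff]
  intro g hg i
  have h1 := congrArg (fun a => β a (x i)) hg
  simp only [map_sum, LinearMap.sum_apply, map_smul, LinearMap.smul_apply, map_zero,
    LinearMap.zero_apply, smul_eq_mul] at h1
  rw [Finset.sum_eq_single i] at h1
  · exact (mul_eq_zero.1 h1).resolve_right (h i)
  · intro j _ hj
    rw [h' j i hj, mul_zero]
  · intro h0; exact absurd (Finset.mem_univ _) h0

omit [CharZero K] in
/-- Existence of a maximal orthogonal family in a rational subspace of a subspace `U`. -/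
theorem exists_MF (hR : RF β R) {U : Submodule K V} [Module.Finite K U] (hU : ∀ v, R v → v ∈ U) :
    ∃ m, m ≤ Module.finrank K U ∧ ∃ (x : Fin m → V) (s : Fin m → ℚ), MF β R x s := by
  classical
  let P : ℕ → Prop := fun m => ∃ x : Fin m → V, (∀ i, R (x i)) ∧ (∀ i, β (x i) (x i) ≠ 0) ∧
    ∀ i j, i ≠ j → β (x i) (x j) = 0
  have hP0 : P 0 := ⟨Fin.elim0, fun i => i.elim0, fun i => i.elim0, fun i => i.elim0⟩
  have hbd : ∀ m, P m → m ≤ Module.finrank K U := by
    rintro m ⟨x, hx, h1, h2⟩
    have h3 := orth_li h1 h2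
    let y : Fin m → U := fun i => ⟨x i, hU _ (hx i)⟩
    have h4 : LinearIndependent K y := by
      apply LinearIndependent.of_comp U.subtype
      exact h3
    have := h4.fintype_card_le_finrank
    rwa [Fintype.card_fin] at this
  obtain ⟨m, hm, hm'⟩ : ∃ m, P m ∧ ¬ P (m + 1) := by
    by_contra hno
    push Not at hno
    have hall : ∀ m, P m := by
      intro m
      induction m with
      | zero => exact hP0
      | succ m ih => exact hno m ih
    have := hbd _ (hall (Module.finrank K U + 1))
    omega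
  refine ⟨m, hbd m hm, ?_⟩
  obtain ⟨y, hy0, hy1, hy2⟩ := hm
  choose s hs using fun i => hR.rat _ _ (hy0 i) (hy0 i)
  refine ⟨y, s, hy0, fun i h0 => hy1 i ?_, hs, hy2, fun u hu hu' => ?_⟩
  · rw [hs, h0, Rat.cast_zero]
  · by_contra hne
    apply hm'
    refine ⟨Fin.cons u y, ?_, ?_, ?_⟩
    · intro i
      refine Fin.cases ?_ (fun i => ?_) i
      · exact hu
      · exact hy0 i
    · intro i
      refine Fin.cases ?_ (fun i => ?_) i
      · exact hne
      · exact hy1 i
    · intro i j
      refine Fin.cases ?_ (fun i => ?_) i <;> refine Fin.cases ?_ (fun j => ?_) j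
      · intro hij; exact absurd rfl hij
      · intro _; exact hu' j
      · intro _
        change β (y i) u = 0
        rw [hR.symm _ _ (hy0 i) hu]; exact hu' i
      · intro hij
        exact hy2 i j (fun h => hij (by rw [h]))

section Sylvester

/-- The space as a module over the rational numbers. -/
@[implicit_reducible] noncomputable def ratMod (K : Type*) [Field K] [CharZero K] (V : Type*) [AddCommGroup V]
    [Module K V] : Module ℚ V := Module.compHom V (algebraMap ℚ K)

/-- The comparison with the families over the rational numbers. -/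
theorem exists_OM_model (hR : RF β R) : ∃ (M : Type w) (_ : AddCommGroup M) (_ : Module ℚ M)
    (B : M →ₗ[ℚ] M →ₗ[ℚ] ℚ), (∀ x y, B x y = B y x) ∧
    ∀ (ι : Type) (x : ι → V) (s : ι → ℚ), MF β R x s →
      ∃ y : ι → M, OM B y ∧ ∀ i, B (y i) (y i) = s i := by
  classical
  let _ : Module ℚ V := ratMod K V
  have hsm : ∀ (q : ℚ) (v : V), q • v = (q : K) • v := fun q v => rfl
  let M : Submodule ℚ V :=
    { carrier := {v | R v}
      add_mem' := fun ha hb => hR.sub.add ha hb
      zero_mem' := hR.sub.zero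
      smul_mem' := fun q v hv => by
        rw [hsm]
        exact hR.sub.smul q hv }
  choose g hg using fun (x y : M) => hR.rat _ _ x.2 y.2
  have hinj : Function.Injective (fun q : ℚ => (q : K)) := Rat.cast_injective
  let B : M →ₗ[ℚ] M →ₗ[ℚ] ℚ := LinearMap.mk₂ ℚ g
    (fun x y z => by
      apply hinj
      change ((g (x + y) z : ℚ) : K) = ((g x z + g y z : ℚ) : K)
      rw [Rat.cast_add, ← hg, ← hg, ← hg]
      change β ((x : V) + (y : V)) z = _
      rw [map_add, LinearMap.add_apply])
    (fun q x y => by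
      apply hinj
      change ((g (q • x) y : ℚ) : K) = ((q • g x y : ℚ) : K)
      rw [smul_eq_mul, Rat.cast_mul, ← hg, ← hg]
      change β ((q : K) • (x : V)) y = _
      rw [map_smul, LinearMap.smul_apply, smul_eq_mul])
    (fun x y z => by
      apply hinj
      change ((g x (y + z) : ℚ) : K) = ((g x y + g x z : ℚ) : K)
      rw [Rat.cast_add, ← hg, ← hg, ← hg]
      change β (x : V) ((y : V) + (z : V)) = _
      rw [map_add])
    (fun q x y => by
      apply hinj
      change ((g x (q • y) : ℚ) : K) = ((q • g x y : ℚ) : K)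
      rw [smul_eq_mul, Rat.cast_mul, ← hg, ← hg]
      change β (x : V) ((q : K) • (y : V)) = _
      rw [map_smul, smul_eq_mul])
  have hB : ∀ x y : M, ((B x y : ℚ) : K) = β (x : V) (y : V) := fun x y => (hg x y).symm
  refine ⟨M, inferInstance, inferInstance, B, ?_, ?_⟩
  · intro x y
    apply hinj
    change ((B x y : ℚ) : K) = ((B y x : ℚ) : K)
    rw [hB, hB]
    exact hR.symm _ _ x.2 y.2
  · intro ι x s h
    refine ⟨fun i => ⟨x i, h.mem i⟩, ⟨?_, ?_, ?_⟩, ?_⟩
    · intro i h0
      have h1 := hB ⟨x i, h.mem i⟩ ⟨x i, h.mem i⟩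
      rw [h0, Rat.cast_zero] at h1
      have h2 := h.self i
      change β (x i) (x i) = _ at h2
      rw [← h1] at h2
      exact h.ne i (by exact_mod_cast h2.symm)
    · intro i j hij
      apply hinj
      change ((B ⟨x i, h.mem i⟩ ⟨x j, h.mem j⟩ : ℚ) : K) = ((0 : ℚ) : K)
      rw [hB, Rat.cast_zero]
      exact h.orth i j hij
    · intro u hu
      apply hinj
      change ((B u u : ℚ) : K) = ((0 : ℚ) : K)
      rw [hB, Rat.cast_zero]
      refine h.max _ u.2 (fun i => ?_)
      have h1 := hB u ⟨x i, h.mem i⟩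
      rw [hu i, Rat.cast_zero] at h1
      exact h1.symm
    · intro i
      apply hinj
      change ((B ⟨x i, h.mem i⟩ ⟨x i, h.mem i⟩ : ℚ) : K) = ((s i : ℚ) : K)
      rw [hB]
      exact h.self i

/-- **Sylvester's law**: the signature does not depend on the family. -/
theorem MF.signature_eq (hR : RF β R) {ι ι' : Type} [Fintype ι] [Fintype ι'] {x : ι → V}
    {s : ι → ℚ} (h : MF β R x s) {x' : ι' → V} {s' : ι' → ℚ} (h' : MF β R x' s') :
    ∑ i, ((SignType.sign (s i) : SignType) : ℤ) = ∑ i, ((SignType.sign (s' i) : SignType) : ℤ) := by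
  obtain ⟨M, _, _, B, hB, hM⟩ := exists_OM_model hR
  obtain ⟨y, hy, hys⟩ := hM ι x s h
  obtain ⟨y', hy', hys'⟩ := hM ι' x' s' h'
  have h1 := hy.signature_eq hB
  have h2 := hy'.signature_eq hB
  simp only [hys] at h1
  simp only [hys'] at h2
  rw [← h1, ← h2]

end Sylvester

/-- The signature of the form on `R` is `N`. -/
def HasSgn (β : V →ₗ[K] V →ₗ[K] K) (R : V → Prop) (N : ℤ) : Prop :=
  ∃ (ι : Type) (_ : Fintype ι) (x : ι → V) (s : ι → ℚ), MF β R x s ∧
    ∑ i, ((SignType.sign (s i) : SignType) : ℤ) = N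

lemma HasSgn.unique (hR : RF β R) {N N' : ℤ} (h : HasSgn β R N) (h' : HasSgn β R N') :
    N = N' := by
  obtain ⟨ι, _, x, s, hx, rfl⟩ := h
  obtain ⟨ι', _, x', s', hx', rfl⟩ := h'
  exact hx.signature_eq hR hx'

/-- The signature is bounded by the dimension of a subspace which contains `R`. -/
theorem exists_sgn (hR : RF β R) {U : Submodule K V} [Module.Finite K U]
    (hU : ∀ v, R v → v ∈ U) : ∃ N : ℤ, HasSgn β R N ∧ |N| ≤ Module.finrank K U := by
  obtain ⟨m, hm, x, s, h⟩ := exists_MF hR hU
  refine ⟨_, ⟨Fin m, inferInstance, x, s, h, rfl⟩, ?_⟩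
  calc |∑ i, ((SignType.sign (s i) : SignType) : ℤ)| ≤
        ∑ i : Fin m, |((SignType.sign (s i) : SignType) : ℤ)| := Finset.abs_sum_le_sum_abs _ _
    _ ≤ ∑ i : Fin m, (1 : ℤ) := by
        apply Finset.sum_le_sum
        intro i _
        rcases SignType.sign (s i) with _ | _ | _ <;> simp
    _ = m := by simp
    _ ≤ Module.finrank K U := by exact_mod_cast hm

end Pool.Agent.Run7.h98.HT
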