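import Pool.Agent.Run7.h98.HT.A1

/-!
# Hyperbolic slots
-/

open Finset

namespace Pool.Agent.Run7.h98.HT

open Pool.Agent.W539.Ker Pool.Agent.W552

universe w w'

variable {K : Type w'} [Field K] {V : Type w} [AddCommGroup V] [Module K V]

/-- Two orthogonal idempotents `e`, `f` and operators between their images. -/
structure SD (K : Type w') [Field K] (V : Type w) [AddCommGroup V] [Module K V] where
  /-- first idempotent -/
  e : Module.End K V
  /-- second idempotent -/
  f : Module.End K V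
  /-- from the image of `e` to the image of `f` -/
  u : Module.End K V
  /-- the adjoint of `u` -/
  u' : Module.End K V
  /-- the factor -/
  c : ℚ

/-- The identities for a slot: the two images are orthogonal and anti-isometric. -/
structure SlotF (β : V →ₗ[K] V →ₗ[K] K) (S : SD K V) : Prop where
  ee : S.e * S.e = S.e
  ff : S.f * S.f = S.f
  ef : S.e * S.f = 0
  fe : S.f * S.e = 0
  fu : S.f * S.u = S.u
  ue : S.u * S.e = S.u
  eu' : S.e * S.u' = S.u'
  uf' : S.u' * S.f = S.u'
  uu : S.u' * S.u = (S.c : K) • S.e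
  uu' : S.u * S.u' = (S.c : K) • S.f
  neg : S.c < 0
  ae : ∀ a b, β (S.e a) b = β a (S.e b)
  af : ∀ a b, β (S.f a) b = β a (S.f b)
  au : ∀ a b, β (S.u a) b = β a (S.u' b)
  au' : ∀ a b, β (S.u' a) b = β a (S.u b)

/-- The rational subspace `R` is stable under the operators of a slot. -/
structure Stab (R : V → Prop) (S : SD K V) : Prop where
  e : ∀ v, R v → R (S.e v)
  f : ∀ v, R v → R (S.f v)
  u : ∀ v, R v → R (S.u v)
  u' : ∀ v, R v → R (S.u' v)

/-- The part of `R` killed by the two idempotents. -/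
def cut (R : V → Prop) (S : SD K V) : V → Prop := fun v => R v ∧ S.e v = 0 ∧ S.f v = 0

variable {β : V →ₗ[K] V →ₗ[K] K} {R : V → Prop} {S : SD K V}

lemma RF.cut (h : RF β R) (S : SD K V) : RF β (cut R S) where
  sub := by
    refine ⟨⟨h.sub.zero, map_zero _, map_zero _⟩, ?_, ?_⟩
    · rintro x y ⟨h1, h2, h3⟩ ⟨h1', h2', h3'⟩
      refine ⟨h.sub.add h1 h1', ?_, ?_⟩
      · rw [map_add, h2, h2', add_zero]
      · rw [map_add, h3, h3', add_zero]
    · rintro q x ⟨h1, h2, h3⟩
      refine ⟨h.sub.smul q h1, ?_, ?_⟩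
      · rw [map_smul, h2, smul_zero]
      · rw [map_smul, h3, smul_zero]
  rat x y hx hy := h.rat x y hx.1 hy.1
  symm x y hx hy := h.symm x y hx.1 hy.1

lemma RF.fix (h : RF β R) (e : Module.End K V) : RF β (fun v => R v ∧ e v = v) where
  sub := by
    refine ⟨⟨h.sub.zero, map_zero _⟩, ?_, ?_⟩
    · rintro x y ⟨h1, h2⟩ ⟨h1', h2'⟩
      exact ⟨h.sub.add h1 h1', by rw [map_add, h2, h2']⟩
    · rintro q x ⟨h1, h2⟩
      exact ⟨h.sub.smul q h1, by rw [map_smul, h2]⟩
  rat x y hx hy := h.rat x y hx.1 hy.1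
  symm x y hx hy := h.symm x y hx.1 hy.1

/-- **Cancellation of a slot.** -/
theorem HasSgn.peel [CharZero K] [Module.Finite K V] (hR : RF β R) (hS : SlotF β S)
    (hs : Stab R S) {N : ℤ} (h : HasSgn β (cut R S) N) : HasSgn β R N := by
  classical
  obtain ⟨ι, _, z, s, hz, hN⟩ := h
  obtain ⟨m, -, a, t, ha⟩ := exists_MF (hR.fix S.e) (U := (⊤ : Submodule K V))
    (fun v _ => Submodule.mem_top)
  have mulA : ∀ (A B : Module.End K V) (v : V), A (B v) = (A * B) v := fun A B v => rfl
  have hee : ∀ v, S.e (S.e v) = S.e v := fun v => by rw [mulA, hS.ee]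
  have hff : ∀ v, S.f (S.f v) = S.f v := fun v => by rw [mulA, hS.ff]
  have hef : ∀ v, S.e (S.f v) = 0 := fun v => by rw [mulA, hS.ef]; rfl
  have hfe : ∀ v, S.f (S.e v) = 0 := fun v => by rw [mulA, hS.fe]; rfl
  have hfu : ∀ v, S.f (S.u v) = S.u v := fun v => by rw [mulA, hS.fu]
  have heu : ∀ v, S.e (S.u v) = 0 := fun v => by rw [← hfu, hef]
  have hae : ∀ i, S.e (a i) = a i := fun i => (ha.mem i).2
  have haf : ∀ i, S.f (a i) = 0 := fun i => by rw [← hae, hfe]
  have hcc : (S.c : K) ≠ 0 := by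
    exact_mod_cast hS.neg.ne
  have huu : ∀ v w, β (S.u v) (S.u w) = (S.c : K) * β v (S.e w) := by
    intro v w
    rw [hS.au, mulA, hS.uu, LinearMap.smul_apply, map_smul, smul_eq_mul]
  have hze : ∀ i, S.e (z i) = 0 := fun i => (hz.mem i).2.1
  have hzf : ∀ i, S.f (z i) = 0 := fun i => (hz.mem i).2.2
  refine ⟨ι ⊕ (Fin m ⊕ Fin m), inferInstance,
    Sum.elim z (Sum.elim a (fun i => S.u (a i))),
    Sum.elim s (Sum.elim t (fun i => S.c * t i)), ⟨?_, ?_, ?_, ?_, ?_⟩, ?_⟩
  · rintro (i | i | i)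
    · exact (hz.mem i).1
    · exact (ha.mem i).1
    · exact hs.u _ (ha.mem i).1
  · rintro (i | i | i)
    · exact hz.ne i
    · exact ha.ne i
    · exact mul_ne_zero hS.neg.ne (ha.ne i)
  · rintro (i | i | i)
    · exact hz.self i
    · exact ha.self i
    · change β (S.u (a i)) (S.u (a i)) = ((S.c * t i : ℚ) : K)
      rw [huu, hae, ha.self, Rat.cast_mul]
  · rintro (i | i | i) (j | j | j) hij
    · exact hz.orth i j (fun h => hij (by rw [h]))
    · change β (z i) (a j) = 0
      rw [← hae, ← hS.ae, hze, map_zero, LinearMap.zero_apply]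
    · change β (z i) (S.u (a j)) = 0
      rw [← hfu, ← hS.af, hzf, map_zero, LinearMap.zero_apply]
    · change β (a i) (z j) = 0
      rw [← hae, hS.ae, hze, map_zero]
    · exact ha.orth i j (fun h => hij (by rw [h]))
    · change β (a i) (S.u (a j)) = 0
      rw [← hfu, ← hS.af, haf, map_zero, LinearMap.zero_apply]
    · change β (S.u (a i)) (z j) = 0
      rw [← hfu, hS.af, hzf, map_zero]
    · change β (S.u (a i)) (a j) = 0
      rw [← hfu, hS.af, haf, map_zero]
    · change β (S.u (a i)) (S.u (a j)) = 0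
      rw [huu, hae, ha.orth i j (fun h => hij (by rw [h])), mul_zero]
  · intro v hv hvo
    have h1 : β (S.e v) (S.e v) = 0 := by
      refine ha.max _ ⟨hs.e v hv, hee v⟩ (fun i => ?_)
      rw [hS.ae, hae]
      exact hvo (Sum.inr (Sum.inl i))
    have h2 : β (S.f v) (S.f v) = 0 := by
      have h3 : β (S.u' v) (S.u' v) = 0 := by
        refine ha.max _ ⟨hs.u' v hv, by rw [mulA, hS.eu']⟩ (fun i => ?_)
        rw [hS.au']
        exact hvo (Sum.inr (Sum.inr i))
      rw [hS.au', mulA, hS.uu', LinearMap.smul_apply, map_smul, smul_eq_mul] at h3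
      rw [hS.af, hff]
      exact (mul_eq_zero.1 h3).resolve_left hcc
    set g := v - S.e v - S.f v with hg
    have hgR : HT.cut R S g := by
      refine ⟨hR.sub.sub (hR.sub.sub hv (hs.e v hv)) (hs.f v hv), ?_, ?_⟩
      · rw [hg, map_sub, map_sub, hee, hef, sub_self, sub_zero]
      · rw [hg, map_sub, map_sub, hfe, hff, sub_zero, sub_self]
    have h4 : β g g = 0 := by
      refine hz.max g hgR (fun i => ?_)
      rw [hg, map_sub, map_sub, LinearMap.sub_apply, LinearMap.sub_apply, hS.ae, hS.af, hze, hzf,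
        map_zero, sub_zero, sub_zero]
      exact hvo (Sum.inl i)
    have hge := hgR.2.1
    have hgf := hgR.2.2
    have h5 : v = g + S.e v + S.f v := by rw [hg]; abel
    have e1 : β g (S.e v) = 0 := by rw [← hS.ae, hge, map_zero, LinearMap.zero_apply]
    have e2 : β g (S.f v) = 0 := by rw [← hS.af, hgf, map_zero, LinearMap.zero_apply]
    have e3 : β (S.e v) g = 0 := by rw [hS.ae, hge, map_zero]
    have e4 : β (S.f v) g = 0 := by rw [hS.af, hgf, map_zero]
    have e5 : β (S.e v) (S.f v) = 0 := by rw [hS.ae, hef, map_zero]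
    have e6 : β (S.f v) (S.e v) = 0 := by rw [hS.af, hfe, map_zero]
    have h6 : β v v = β (g + S.e v + S.f v) (g + S.e v + S.f v) := by rw [← h5]
    rw [h6]
    simp only [map_add, LinearMap.add_apply, e1, e2, e3, e4, e5, e6, h1, h2, h4, add_zero]
  · rw [Fintype.sum_sum_type, Fintype.sum_sum_type]
    have h1 : ∀ i : Fin m, ((SignType.sign (S.c * t i) : SignType) : ℤ) =
        -((SignType.sign (t i) : SignType) : ℤ) := by
      intro i
      rw [sign_mul, sign_neg hS.neg]
      simp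
    simp only [Sum.elim_inl, Sum.elim_inr]
    rw [Finset.sum_congr rfl (fun i _ => h1 i), Finset.sum_neg_distrib, add_neg_cancel, add_zero]
    exact hN

/-- The two slots commute. -/
def Comm (S T : SD K V) : Prop :=
  (∀ A ∈ ({S.e, S.f} : Set (Module.End K V)), ∀ B ∈ ({T.e, T.f, T.u, T.u'} : Set (Module.End K V)),
    A * B = B * A)

lemma Stab.cut {S T : SD K V} (h : Stab R T) (hc : Comm S T) : Stab (cut R S) T := by
  have key : ∀ B ∈ ({T.e, T.f, T.u, T.u'} : Set (Module.End K V)), ∀ v, S.e v = 0 → S.f v = 0 →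
      S.e (B v) = 0 ∧ S.f (B v) = 0 := by
    intro B hB v h1 h2
    have e1 := congrArg (fun A => A v) (hc S.e (by simp) B hB)
    have e2 := congrArg (fun A => A v) (hc S.f (by simp) B hB)
    simp only [Module.End.mul_apply] at e1 e2
    rw [e1, e2, h1, h2, map_zero]
    exact ⟨rfl, rfl⟩
  refine ⟨?_, ?_, ?_, ?_⟩
  · rintro v ⟨h0, h1, h2⟩
    exact ⟨h.e v h0, key _ (by simp) v h1 h2⟩
  · rintro v ⟨h0, h1, h2⟩
    exact ⟨h.f v h0, key _ (by simp) v h1 h2⟩
  · rintro v ⟨h0, h1, h2⟩
    exact ⟨h.u v h0, key _ (by simp) v h1 h2⟩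
  · rintro v ⟨h0, h1, h2⟩
    exact ⟨h.u' v h0, key _ (by simp) v h1 h2⟩

/-- The part of `R` killed by all idempotents of a list of slots. -/
def cutL (R : V → Prop) (L : List (SD K V)) : V → Prop :=
  fun v => R v ∧ ∀ S ∈ L, S.e v = 0 ∧ S.f v = 0

/-- **Cancellation of a list of slots.** -/
theorem HasSgn.peelL [CharZero K] [Module.Finite K V] {L : List (SD K V)} {R : V → Prop}
    (hR : RF β R) (hS : ∀ S ∈ L, SlotF β S) (hs : ∀ S ∈ L, Stab R S) (hL : L.Pairwise Comm)
    {N : ℤ} (h : HasSgn β (cutL R L) N) : HasSgn β R N := by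
  induction L generalizing R with
  | nil =>
    have : cutL R ([] : List (SD K V)) = R := by
      funext v
      simp [cutL]
    rwa [this] at h
  | cons S L ih =>
    rw [List.pairwise_cons] at hL
    apply HasSgn.peel hR (hS S (by simp)) (hs S (by simp))
    apply ih (hR.cut S) (fun T hT => hS T (by simp [hT]))
      (fun T hT => (hs T (by simp [hT])).cut (hL.1 T hT)) hL.2
    have : cutL R (S :: L) = cutL (HT.cut R S) L := by
      funext v
      simp only [cutL, HT.cut, List.forall_mem_cons, eq_iff_iff]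
      tauto
    rwa [this] at h

/-- The product of the complementary idempotents. -/
noncomputable def GP (L : List (SD K V)) : Module.End K V :=
  (L.map (fun S => 1 - S.e - S.f)).prod

lemma GP_cut {L : List (SD K V)} {v : V} (h : ∀ S ∈ L, S.e v = 0 ∧ S.f v = 0) : GP L v = v := by
  induction L with
  | nil => rfl
  | cons S L ih =>
    rw [GP, List.map_cons, List.prod_cons, Module.End.mul_apply]
    have h1 : GP L v = v := ih (fun T hT => h T (by simp [hT]))
    rw [GP] at h1
    rw [h1]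
    obtain ⟨h2, h3⟩ := h S (by simp)
    simp [LinearMap.sub_apply, h2, h3]

/-- **The bound for the signature.** -/
theorem sgn_bound [CharZero K] [Module.Finite K V] {L : List (SD K V)} {R : V → Prop}
    (hR : RF β R) (hS : ∀ S ∈ L, SlotF β S) (hs : ∀ S ∈ L, Stab R S) (hL : L.Pairwise Comm)
    {N : ℤ} (h : HasSgn β R N) : |N| ≤ Module.finrank K (LinearMap.range (GP L)) := by
  have h0 : RF β (cutL R L) := by
    refine ⟨⟨⟨hR.sub.zero, fun S _ => ⟨map_zero _, map_zero _⟩⟩, ?_, ?_⟩,
      fun x y hx hy => hR.rat x y hx.1 hy.1, fun x y hx hy => hR.symm x y hx.1 hy.1⟩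
    · rintro x y ⟨h1, h2⟩ ⟨h1', h2'⟩
      refine ⟨hR.sub.add h1 h1', fun S hS => ?_⟩
      rw [map_add, map_add, (h2 S hS).1, (h2 S hS).2, (h2' S hS).1, (h2' S hS).2, add_zero]
      exact ⟨rfl, rfl⟩
    · rintro q x ⟨h1, h2⟩
      refine ⟨hR.sub.smul q h1, fun S hS => ?_⟩
      rw [map_smul, map_smul, (h2 S hS).1, (h2 S hS).2, smul_zero]
      exact ⟨rfl, rfl⟩
  obtain ⟨N', h1, h2⟩ := exists_sgn h0 (U := LinearMap.range (GP L))
    (fun v hv => ⟨v, GP_cut hv.2⟩)
  have h3 := HasSgn.peelL hR hS hs hL h1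
  rw [h.unique hR h3]
  exact h2

end Pool.Agent.Run7.h98.HT
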