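import Pool.Agent.W539.Ker.Ops
import Pool.Agent.W539.Ker.Fam
import Pool.Agent.Run7.h98.HT.A2

/-!
# Slots on the cohomology of products
-/

open CategoryTheory AlgebraicGeometry Finset TensorProduct

universe u v

namespace Pool.Agent.Run7.h98.HT

open Pool.Agent.H914 Pool.Agent.H914.VarClass Pool.Agent.H914.VarClass.Obj
  Pool.Agent.H914.WeilCohomology Pool.Agent.H281R3.HT Pool.Agent.W552 Pool.Agent.W539.Ker

variable {k : Type u} [Field k] {𝒱 : VarClass k} {ops : CycleOps 𝒱}
  {W : WeilCohomology.{u, v} ops} {X Y Z : 𝒱.Obj}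

section Prod

/-- Hard Lefschetz from the operators. -/
lemma hardLef_of_sl2 {D : X.Cycles} (hD : X.IsCyc 1 D) {f : Module.End W.K (W.H X)}
    (t : Sl2 (wt (W.isInternal X) X.dim) (LinearMap.mulLeft W.K (W.cl X D)) f) :
    HardLef (W.gr X) X.dim (LinearMap.mulLeft W.K (W.cl X D)) := by
  set L := LinearMap.mulLeft W.K (W.cl X D) with hL
  set H := wt (W.isInternal X) X.dim with hH
  have hLh : IsHom (W.gr X) 2 L := mulLeft_isHom hD
  -- the weight spaces
  have key : ∀ {e g : Module.End W.K (W.H X)} {H : Module.End W.K (W.H X)} (t : Sl2 H e g)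
      (m : ℕ) {y : W.H X}, H y = (m : W.K) • y → ∃ z, H z = -(m : W.K) • z ∧ (e ^ m) z = y := by
    intro e g H t m y hy
    have h2 : ∀ x : W.H X, (2 : Module.End W.K (W.H X)) x = (2 : W.K) • x := fun x => by
      rw [ofNat_smul_eq_nsmul]; rfl
    obtain ⟨z, hz, hz'⟩ := exists_preimage' t (P := fun d x => H x = (d : W.K) • x)
      (fun d => by rw [map_zero, smul_zero])
      (fun {d x y} hx hy => by rw [map_add, hx, hy, smul_add])
      (fun q {d x} hx => by rw [map_smul, hx, smul_comm])
      (fun {d x} hx => by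
        have h1 := congrArg (fun F => F x) t.he
        simp only [LinearMap.sub_apply, Module.End.mul_apply, hx, map_smul, h2] at h1
        rw [sub_eq_iff_eq_add] at h1
        rw [h1]
        push_cast
        module)
      (fun {d x} hx => by
        have h1 := congrArg (fun F => F x) t.hf
        simp only [LinearMap.sub_apply, Module.End.mul_apply, hx, map_smul, LinearMap.neg_apply,
          h2] at h1
        rw [sub_eq_iff_eq_add] at h1
        rw [h1]
        push_cast
        module)
      (fun {d x} hx => hx) m (y := y) (by simpa using hy)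
    exact ⟨z, by simpa using hz, hz'⟩
  have hgr : ∀ {i : ℕ} {a : W.H X}, a ∈ W.gr X i ↔ H a = ((i : W.K) - X.dim) • a := by
    intro i a
    constructor
    · intro ha
      exact Fr.wt_gr ha
    · intro ha
      exact (mem_gr_of_wt (W.isInternal X) W_hbd ha).1 i rfl
  intro i hi
  have hsurj : ∀ b ∈ W.gr X (2 * X.dim - i), ∃ a ∈ W.gr X i, (L ^ (X.dim - i)) a = b := by
    intro b hb
    obtain ⟨z, hz, hz'⟩ := key t (X.dim - i) (y := b) (by
      rw [hgr.1 hb, Nat.cast_sub (show i ≤ 2 * X.dim by omega), Nat.cast_sub hi]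
      congr 1
      push_cast
      ring)
    refine ⟨z, hgr.2 ?_, hz'⟩
    rw [hz, Nat.cast_sub hi]
    congr 1
    ring
  refine ⟨?_, hsurj⟩
  -- injectivity by counting dimensions
  have hmap : ∀ a ∈ W.gr X i, (L ^ (X.dim - i)) a ∈ W.gr X (2 * X.dim - i) := by
    intro a ha
    have := pow_L_mem hLh ha (X.dim - i)
    rwa [show i + 2 * (X.dim - i) = 2 * X.dim - i by omega] at this
  have hle : Module.finrank W.K (W.gr X i) ≤ Module.finrank W.K (W.gr X (2 * X.dim - i)) := by
    have hs2 : ∀ b ∈ W.gr X i, ∃ a ∈ W.gr X (2 * X.dim - i), ((-f) ^ (X.dim - i)) a = b := by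
      intro b hb
      obtain ⟨z, hz, hz'⟩ := key t.neg_swap (X.dim - i) (y := b) (by
        rw [LinearMap.neg_apply, hgr.1 hb, ← neg_smul, Nat.cast_sub hi]
        congr 1
        ring)
      refine ⟨z, hgr.2 ?_, hz'⟩
      rw [LinearMap.neg_apply, neg_eq_iff_eq_neg, ← neg_smul] at hz
      rw [hz, Nat.cast_sub (show i ≤ 2 * X.dim by omega), Nat.cast_sub hi]
      congr 1
      push_cast
      ring
    have h1 : W.gr X i ≤ (W.gr X (2 * X.dim - i)).map ((-f) ^ (X.dim - i)) := by
      intro b hb
      obtain ⟨a, ha, hab⟩ := hs2 b hb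
      exact ⟨a, ha, hab⟩
    exact (Submodule.finrank_mono h1).trans (Submodule.finrank_map_le _ _)
  let T : W.gr X i →ₗ[W.K] W.gr X (2 * X.dim - i) :=
    ((L ^ (X.dim - i)).comp (W.gr X i).subtype).codRestrict _ (fun a => hmap _ a.2)
  have hTs : Function.Surjective T := by
    rintro ⟨b, hb⟩
    obtain ⟨a, ha, hab⟩ := hsurj b hb
    exact ⟨⟨a, ha⟩, Subtype.ext hab⟩
  have heq : Module.finrank W.K (W.gr X i) = Module.finrank W.K (W.gr X (2 * X.dim - i)) := by
    apply le_antisymm hle
    exact LinearMap.finrank_le_finrank_of_surjective hTs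
  have hTi : Function.Injective T := (LinearMap.injective_iff_surjective_of_finrank_eq_finrank
    heq).2 hTs
  intro a ha h0
  have h1 : T ⟨a, ha⟩ = 0 := Subtype.ext h0
  have h2 := hTi (h1.trans (map_zero T).symm)
  exact congrArg Subtype.val h2

variable {D : X.Cycles} {f : Module.End W.K (W.H X)} {E : Y.Cycles}
  {g : Module.End W.K (W.H Y)}

/-- The product of two frames. -/
theorem gd_prod (G : Gd W X D f) (G' : Gd W Y E g) :
    Gd W (X.prod Y) (ops.pull (fst X Y) D + ops.pull (snd X Y) E) (extSum W f g) := by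
  have F := G.fr.prod G'.fr
  refine ⟨F, ⟨mulLeft_isHom F.hD, W_hbd, hardLef_of_sl2 F.hD F.sl2, F.sl2⟩, ?_, ?_⟩
  · have hS : st W (X.prod Y) (ops.pull (fst X Y) D + ops.pull (snd X Y) E) (extSum W f g) =
        extS W (st W X D f) (st W Y E g) := by
      apply LinearMap.ext
      intro c
      refine W.kunneth_induction (p := fun c => st W (X.prod Y) (ops.pull (fst X Y) D +
        ops.pull (snd X Y) E) (extSum W f g) c = extS W (st W X D f) (st W Y E g) c) ?_ ?_ c
      · intro a b ha hb
        rw [map_add, map_add, ha, hb]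
      · intro i j a ha b hb
        rw [extS_tmul _ _ ha hb, st_apply (W.mul_mem (W.map_mem _ ha) (W.map_mem _ hb)),
          st_apply ha, st_apply hb, wop, wop, wop, mulLeft_prod G'.fr.hD,
          wey_prod G.fr.sl2.nil_e G.fr.sl2.nil_f G'.fr.sl2.nil_e G'.fr.sl2.nil_f, extOp_tmul,
          map_smul, map_smul, smul_mul_assoc, mul_smul_comm, smul_smul, smul_smul, sg_add]
        congr 1
        push_cast
        ring
    rw [hS, extS]
    have e1 := G.sa.ext G'.sa
    have e2 := (G.sa.mul G.pa).ext G'.sa
    have e3 := G.sa.ext (G'.sa.mul G'.pa)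
    have e4 := (G.sa.mul G.pa).ext (G'.sa.mul G'.pa)
    have e5 := AOp.ratSub.smul (1 / 2 : ℚ) (AOp.ratSub.sub ((e1.add e2).add e3) e4)
    have e6 : ((1 / 2 : ℚ) : W.K) = (2 : W.K)⁻¹ := by push_cast; rw [one_div]
    rwa [e6] at e5
  · have hP : par (W.isInternal (X.prod Y)) = extOp W (par (W.isInternal X))
        (par (W.isInternal Y)) := by
      apply LinearMap.ext
      intro c
      refine W.kunneth_induction (p := fun c => par (W.isInternal (X.prod Y)) c =
        extOp W (par (W.isInternal X)) (par (W.isInternal Y)) c) ?_ ?_ c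
      · intro a b ha hb
        rw [map_add, map_add, ha, hb]
      · intro i j a ha b hb
        rw [extOp_tmul, par, par, par, scal_apply _ _ (W.mul_mem (W.map_mem _ ha)
          (W.map_mem _ hb)), scal_apply _ _ ha, scal_apply _ _ hb, map_smul, map_smul,
          smul_mul_assoc, mul_smul_comm, smul_smul, pow_add]
    rw [hP]
    exact G.pa.ext G'.pa

/-- The adjoint of an external product of operators. -/
lemma bf_extOp (F : Fr W X D f) (F' : Fr W Y E g) {A A' : Module.End W.K (W.H X)}
    {B B' : Module.End W.K (W.H Y)} (hA : ∀ a b, bf W X D f (A a) b = bf W X D f a (A' b))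
    (hB : ∀ a b, bf W Y E g (B a) b = bf W Y E g a (B' b)) (x y : W.H (X.prod Y)) :
    bf W (X.prod Y) (ops.pull (fst X Y) D + ops.pull (snd X Y) E) (extSum W f g)
      (extOp W A B x) y = bf W (X.prod Y) (ops.pull (fst X Y) D + ops.pull (snd X Y) E)
      (extSum W f g) x (extOp W A' B' y) := by
  refine W.kunneth_induction (p := fun x => bf W (X.prod Y) (ops.pull (fst X Y) D +
    ops.pull (snd X Y) E) (extSum W f g) (extOp W A B x) y = bf W (X.prod Y)
    (ops.pull (fst X Y) D + ops.pull (snd X Y) E) (extSum W f g) x (extOp W A' B' y)) ?_ ?_ x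
  · intro a b ha hb
    rw [map_add, map_add, LinearMap.add_apply, ha, hb, map_add, LinearMap.add_apply]
  intro i j a _ b _
  refine W.kunneth_induction (p := fun y => bf W (X.prod Y) (ops.pull (fst X Y) D +
    ops.pull (snd X Y) E) (extSum W f g) (extOp W A B _) y = bf W (X.prod Y)
    (ops.pull (fst X Y) D + ops.pull (snd X Y) E) (extSum W f g) _ (extOp W A' B' y)) ?_ ?_ y
  · intro c d hc hd
    rw [map_add, hc, hd, map_add (extOp W A' B'), map_add]
  intro i' j' a' _ b' _
  rw [extOp_tmul, extOp_tmul]
  have e1 := F.bf_ext F' (A a) a' (B b) b'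
  have e2 := F.bf_ext F' a (A' a') b (B' b')
  rw [H281R3.HT.ext, H281R3.HT.ext] at e1 e2
  rw [e1, e2, hA, hB]

/-- The weight of an external product of operators. -/
lemma hm_extOp {A : Module.End W.K (W.H X)} {B : Module.End W.K (W.H Y)}
    (hA : Hm W 0 A) (hB : Hm W 0 B) : Hm W 0 (extOp W A B) := by
  have h1 : wt (W.isInternal X) X.dim * A = A * wt (W.isInternal X) X.dim := by
    have := hA
    rw [Hm, Int.cast_zero, zero_smul, add_zero] at this
    exact this
  have h2 : wt (W.isInternal Y) Y.dim * B = B * wt (W.isInternal Y) Y.dim := by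
    have := hB
    rw [Hm, Int.cast_zero, zero_smul, add_zero] at this
    exact this
  have h3 : wt (W.isInternal (X.prod Y)) (X.prod Y).dim * extOp W A B =
      extOp W A B * wt (W.isInternal (X.prod Y)) (X.prod Y).dim := by
    rw [wt_prod, extSum, add_mul, mul_add, extL_apply, extR_apply, extOp_mul, extOp_mul, extOp_mul,
      extOp_mul, one_mul, one_mul, mul_one, mul_one, h1, h2]
  rw [Hm, Int.cast_zero, zero_smul, add_zero]
  exact h3

/-- The rank of an external product of operators. -/
lemma finrank_extOp (A : Module.End W.K (W.H X)) (B : Module.End W.K (W.H Y)) :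
    Module.finrank W.K (LinearMap.range (extOp W A B)) ≤
      Module.finrank W.K (LinearMap.range A) * Module.finrank W.K (LinearMap.range B) := by
  rw [← Module.finrank_tensorProduct]
  have h1 : TensorProduct.map A B =
      TensorProduct.mapIncl (LinearMap.range A) (LinearMap.range B) ∘ₗ
        TensorProduct.map A.rangeRestrict B.rangeRestrict := by
    apply TensorProduct.ext'
    intro a b
    rfl
  have h2 : LinearMap.range (extOp W A B) ≤
      ((LinearMap.range (TensorProduct.mapIncl (LinearMap.range A)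
        (LinearMap.range B))).map (kappa W X Y).toLinearMap) := by
    rintro _ ⟨c, rfl⟩
    refine ⟨TensorProduct.map A B ((kappa W X Y).symm c), ?_, rfl⟩
    rw [h1]
    exact ⟨_, rfl⟩
  exact (Submodule.finrank_mono h2).trans ((Submodule.finrank_map_le _ _).trans
    (LinearMap.finrank_range_le _))

end Prod

end Pool.Agent.Run7.h98.HT
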